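import Pool.Agent.H11.KT.Main

/-!
# MP_0b603e_al: uniform ellipticity in groups of bounded complexity

Let `w` be a word such that every metabelian group satisfying the law `w` is abelian. Then the
width of `w` is bounded by a function of `ρ`, `k`, `d` in all finite groups which are generated by
`d` elements, have complexity at most `k` over the class `BaseB ρ` and have a soluble normal
subgroup of index at most `ρ`.
-/

set_option autoImplicit false

namespace Pool.Agent.Results.MP_0b603e_al.BoundedComplexity

open Pool.Agent.H11.EL Pool.Agent.H11.KT

theorem result :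
    ∀ (r : ℕ) (w : FreeGroup (Fin r)), MetabelianForcing w → ∀ ρ k d : ℕ, ∃ K : ℕ,
      ∀ (G : Type) [Group G] [Finite G], Cplx (BaseB ρ) k G →
        (∃ S : Subgroup G, S.Normal ∧ Group.IsSolvable S ∧ S.index ≤ ρ) →
        (∃ s : Finset G, s.card ≤ d ∧ Subgroup.closure (s : Set G) = ⊤) →
        ∀ g ∈ Subgroup.closure (Set.range (fun f : Fin r → G => FreeGroup.lift f w)),
          ∃ l : List G, l.length ≤ K ∧
            (∀ x ∈ l, x ∈ Set.range (fun f : Fin r → G => FreeGroup.lift f w) ∨
              x⁻¹ ∈ Set.range (fun f : Fin r → G => FreeGroup.lift f w)) ∧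
            l.prod = g := by
  exact all_widthB

end Pool.Agent.Results.MP_0b603e_al.BoundedComplexity
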