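import Pool.Agent.H18.GWD.Final

/-!
# MP_0b603e_al: good words

Let `w` be a good word. Then the width of `w` is bounded by a function of `ρ` and `d` in all finite
groups which are generated by `d` elements and have a soluble normal subgroup of index at most
`ρ`; in particular `w` is uniformly elliptic in all finite soluble groups. Forcing words and the
words `⁅y, x ^ 2⁆ u` and `⁅⁅y, x⁆, x⁆ u`, `u = c(x y x⁻¹, .., x ^ m y x⁻ᵐ)`, `c` in the derived
group of the free group with `m` generators, are good.
-/

set_option autoImplicit false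

namespace Pool.Agent.Results.MP_0b603e_al.GoodWords

open Pool.Agent.H11.KT Pool.Agent.H18.GW

theorem result :
    (∀ (r : ℕ) (w : FreeGroup (Fin r)), GoodWord w → ∀ ρ d : ℕ, ∃ K : ℕ,
      ∀ (G : Type) [Group G] [Finite G],
        (∃ S : Subgroup G, S.Normal ∧ Group.IsSolvable S ∧ S.index ≤ ρ) →
        (∃ s : Finset G, s.card ≤ d ∧ Subgroup.closure (s : Set G) = ⊤) →
        ∀ g ∈ Subgroup.closure (Set.range (fun f : Fin r → G => FreeGroup.lift f w)),
          ∃ l : List G, l.length ≤ K ∧
            (∀ x ∈ l, x ∈ Set.range (fun f : Fin r → G => FreeGroup.lift f w) ∨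
              x⁻¹ ∈ Set.range (fun f : Fin r → G => FreeGroup.lift f w)) ∧
            l.prod = g) ∧
    (∀ (r : ℕ) (w : FreeGroup (Fin r)), ForcingWord w → GoodWord w) ∧
    (∀ (m : ℕ) (c : FreeGroup (Fin m)), c ∈ commutator (FreeGroup (Fin m)) →
      GoodWord (gword wordB m c) ∧ GoodWord (gword wordC m c)) := by
  exact ⟨Pool.Agent.H18.GWD.main_width,
    Pool.Agent.H18.GWD.main_good, Pool.Agent.H18.GWD.main_explicit⟩

end Pool.Agent.Results.MP_0b603e_al.GoodWords
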