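import Pool.Agent.H11.KT.Main

/-!
# MP_0b603e_al: commutators in finite soluble groups

Let `w` be a forcing word. Then in every group (finite or not, no condition on the number of
generators) of complexity at most `k` over the class `BaseA ρ`, for example in every finite soluble
group, every commutator is a product of boundedly many values of `w` and their inverses.
-/

set_option autoImplicit false

namespace Pool.Agent.Results.MP_0b603e_al.SolubleCommutators

open Pool.Agent.H11.KT

open scoped commutatorElement in
theorem result :
    ∀ (r : ℕ) (w : FreeGroup (Fin r)), ForcingWord w → ∀ ρ k : ℕ, ∃ M : ℕ,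
      ∀ (G : Type) [Group G], Cplx (BaseA ρ) k G → ∀ x y : G,
        ∃ l : List G, l.length ≤ M ∧
          (∀ x ∈ l, x ∈ Set.range (fun f : Fin r → G => FreeGroup.lift f w) ∨
            x⁻¹ ∈ Set.range (fun f : Fin r → G => FreeGroup.lift f w)) ∧
          l.prod = ⁅x, y⁆ := by
  exact main_commA

end Pool.Agent.Results.MP_0b603e_al.SolubleCommutators
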